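import Pool.Agent.H.MP_73efbe_lc.A
import Pool.Agent.Lib.helper21.Jump

set_option autoImplicit false

/-! The countable power of the Golomb space. -/

namespace Pool.Agent.H.MP_4f977f_lc

open Pool.Agent.Lib.helper21.PR Pool.Agent.H.MP_73efbe_lc Topology TopologicalSpace Set Encodable

attribute [local irreducible] Primrec Computable

theorem cnt_re {α : Type} [Primcodable α] : Countable {W : α → Prop // REPred W} := by
  choose c hc using fun W : {W : α → Prop // REPred W} => re_code W.2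
  exact Function.Injective.countable (f := c) fun x y e => Subtype.ext (funext fun a =>
    propext (by rw [hc, hc, e]))

/-- an enumeration operator induces a continuous map -/
theorem cont {Y : Type} [t : TopologicalSpace Y] {γ : ℕ → Set Y} (h : t = generateFrom (range γ))
    {y : Y} {U : Set Y} (k : U ∈ 𝓝 y) : ∃ l : List ℕ, (∀ e ∈ l, y ∈ γ e) ∧
      ∀ z, (∀ e ∈ l, z ∈ γ e) → z ∈ U := by
  obtain ⟨_, ⟨f, ⟨h1, h2⟩, rfl⟩, h3, h4⟩ := (isTopologicalBasis_of_subbasis h).mem_nhds_iff.1 k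
  choose! c hc using h2
  refine ⟨h1.toFinset.toList.map c, fun e he => ?_, fun z hz => h4 fun s hs => ?_⟩
  · obtain ⟨s, a, rfl⟩ := List.mem_map.1 he
    have : s ∈ f := by simpa using a
    exact (hc this).symm ▸ h3 s this
  · exact hc hs ▸ hz _ (List.mem_map_of_mem (by simpa using hs))

theorem pull {X Y : Type} [t : TopologicalSpace Y] {β : ℕ → Set X} {γ : ℕ → Set Y}
    (h : t = generateFrom (range γ)) {W : ℕ × List ℕ → Prop} {Z : Set X} {g : X → Y}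
    (hg : ∀ x ∈ Z, ∀ n, g x ∈ γ n ↔ ∃ l, W (n, l) ∧ ∀ e ∈ l, x ∈ β e) {x : X} (hx : x ∈ Z) {U : Set Y}
    (k : U ∈ 𝓝 (g x)) : ∃ l : List ℕ, (∀ e ∈ l, x ∈ β e) ∧
      ∀ z ∈ Z, (∀ e ∈ l, z ∈ β e) → g z ∈ U := by
  obtain ⟨l, h1, h2⟩ := cont h k
  choose! D h3 h4 using fun e he => (hg x hx e).1 (h1 e he)
  exact ⟨l.flatMap D, fun e he => (List.mem_flatMap.1 he).elim fun a b => h4 a b.1 e b.2,
    fun z hz u => h2 _ fun e he => (hg z hz e).2
      ⟨_, h3 e he, fun a b => u a (List.mem_flatMap.2 ⟨e, he, b⟩)⟩⟩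

def gb (e : ℕ) : Set (ℕ → ℕ) := {x | (x e.unpair.1 + 1) % (e.unpair.2.unpair.1 + 1) =
  e.unpair.2.unpair.2 ∧ (x e.unpair.1 + 1).Coprime (e.unpair.2.unpair.1 + 1)}

theorem nb {x : ℕ → ℕ} {l : List ℕ} (h : ∀ e ∈ l, x ∈ gb e) : ∃ (m : ℕ) (M : ℕ → ℕ),
    (∀ j, 0 < M j ∧ (x j + 1).Coprime (M j)) ∧
      ∀ z : ℕ → ℕ, (∀ j < m, z j + 1 ≡ x j + 1 [MOD M j]) → ∀ e ∈ l, z ∈ gb e := by
  induction l with
  | nil => exact ⟨0, fun _ => 1, by simp, by simp⟩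
  | cons e l ih =>
    obtain ⟨⟨a1, a2⟩, a3⟩ := List.forall_mem_cons.1 h
    obtain ⟨m, M, h1, h2⟩ := ih a3
    refine ⟨m + e.unpair.1 + 1, fun j => M j * if j = e.unpair.1 then e.unpair.2.unpair.1 + 1 else 1,
      fun j => ?_, fun z hz => List.forall_mem_cons.2 ⟨?_, h2 z fun j hj =>
        (hz j (by omega)).of_mul_right _⟩⟩
    · dsimp only
      split_ifs with c
      · exact ⟨Nat.mul_pos (h1 j).1 (Nat.succ_pos _), (h1 j).2.mul_right (c ▸ a2)⟩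
      · simpa using h1 j
    · have := (hz e.unpair.1 (by omega)).of_mul_left _
      rw [if_pos rfl] at this
      exact ⟨Eq.trans this a1, this.gcd_eq.trans a2⟩

theorem crt {a c : ℕ} (h : a.Coprime c) (ha : 0 < a) (hc : 0 < c) (u v : ℕ) :
    ∃ k, k + 1 ≡ u [MOD a] ∧ k + 1 ≡ v [MOD c] := by
  obtain ⟨k, h1, h2⟩ := Nat.chineseRemainder h u v
  have := Nat.mul_pos ha hc
  refine ⟨k + a * c - 1, ?_⟩
  rw [show k + a * c - 1 + 1 = k + a * c by omega]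
  exact ⟨by simpa [Nat.ModEq] using h1, by simpa [Nat.ModEq] using h2⟩

theorem const {Y : Type} [t : TopologicalSpace Y] [T25Space Y] {γ : ℕ → Set Y}
    (h : t = generateFrom (range γ)) {W : ℕ × List ℕ → Prop} {Z : Set (ℕ → ℕ)} {g : (ℕ → ℕ) → Y}
    (hg : ∀ x ∈ Z, ∀ n, g x ∈ γ n ↔ ∃ l, W (n, l) ∧ ∀ e ∈ l, x ∈ gb e) {u : ℕ → ℕ} {n : ℕ}
    (hd : ∀ v m, Ag n u v → ∃ w, Ag m v w ∧ w ∈ Z) {x y : ℕ → ℕ} (hx : x ∈ Z) (hy : y ∈ Z)
    (ax : Ag n u x) (ay : Ag n u y) : g x = g y := by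
  by_contra c
  obtain ⟨U, hU, V, hV, d⟩ := exists_nhds_disjoint_closure c
  obtain ⟨l1, a1, b1⟩ := pull h hg hx hU
  obtain ⟨l2, a2, b2⟩ := pull h hg hy hV
  obtain ⟨m1, M1, c1, d1⟩ := nb a1
  obtain ⟨m2, M2, c2, d2⟩ := nb a2
  obtain ⟨z, e, hz⟩ := hd (fun j => if j < n then u j else M1 j * M2 j - 1) (n + m1 + m2)
    fun j hj => if_pos hj
  have key : ∀ {x : ℕ → ℕ} {m : ℕ} {M : ℕ → ℕ} {U : Set Y}, Ag n u x → m ≤ m1 + m2 →
      (∀ j, 0 < M j ∧ M j ∣ M1 j * M2 j) → (∀ z ∈ Z, (∀ j < m, z j + 1 ≡ x j + 1 [MOD M j]) → g z ∈ U) →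
        g z ∈ closure U := fun {x m M U} k1 k2 k3 k4 => mem_closure_iff_nhds.2 fun T hT => by
    obtain ⟨l, a, b⟩ := pull h hg hz hT
    obtain ⟨m3, M3, c3, d3⟩ := nb a
    have : ∀ j, ∃ k, (j < n → k = u j) ∧ (j < m → k + 1 ≡ x j + 1 [MOD M j]) ∧
        k + 1 ≡ z j + 1 [MOD M3 j] := fun j => by
      by_cases p : j < n
      · exact ⟨u j, fun _ => rfl, fun _ => by rw [k1 j p], by rw [e j (by omega)]; simp [p, Nat.ModEq]⟩
      by_cases q : j < m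
      · have := Nat.mul_pos (c1 j).1 (c2 j).1
        have r : z j + 1 = M1 j * M2 j := by rw [e j (by omega)]; simp only [if_neg p]; omega
        exact (crt ((r ▸ (c3 j).2).coprime_dvd_left (k3 j).2) (k3 j).1 (c3 j).1 _ _).imp
          fun k hk => ⟨fun a => absurd a p, fun _ => hk.1, hk.2⟩
      · exact ⟨z j, fun a => absurd a p, fun a => absurd a q, rfl⟩
    choose v v1 v2 v3 using this
    obtain ⟨w, w1, w2⟩ := hd v (m + m3) v1
    exact ⟨g w, b w w2 (d3 w fun j hj => w1 j (by omega) ▸ v3 j),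
      k4 w w2 fun j hj => w1 j (by omega) ▸ v2 j hj⟩
  exact disjoint_left.1 d
    (key ax (by omega) (fun j => ⟨(c1 j).1, dvd_mul_right _ _⟩) fun w a b => b1 w a (d1 w b))
    (key ay (by omega) (fun j => ⟨(c2 j).1, dvd_mul_left _ _⟩) fun w a b => b2 w a (d2 w b))

theorem t2 : @T2Space _ (generateFrom (range gb)) := by
  let _ := generateFrom (range gb)
  refine ⟨fun x y h => ?_⟩
  obtain ⟨j, hj⟩ := Function.ne_iff.1 h
  obtain ⟨p, h1, h2⟩ := Nat.exists_infinite_primes (x j + y j + 2)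
  have k : ∀ x : ℕ → ℕ, x j + 1 < p → x ∈ gb (Nat.pair j (Nat.pair (p - 1) (x j + 1))) := fun x a => by
    simp only [gb, Nat.unpair_pair, mem_ofPred_eq, show p - 1 + 1 = p by omega]
    exact ⟨Nat.mod_eq_of_lt a, (Nat.coprime_of_lt_prime (by omega) a h2).symm⟩
  refine ⟨_, _, .basic _ ⟨_, rfl⟩, .basic _ ⟨_, rfl⟩, k x (by omega), k y (by omega),
    disjoint_left.2 fun z a b => hj ?_⟩
  simp only [gb, Nat.unpair_pair, mem_ofPred_eq] at a b
  omega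

theorem gb_p : Primrec fun z : List ℕ × ℕ => cd ((z.1.getD · 0) ∈ gb z.2) := by
  refine (dec (pred (p := fun z : List ℕ × ℕ => (z.1.getD z.2.unpair.1 0 + 1) %
    (z.2.unpair.2.unpair.1 + 1) = z.2.unpair.2.unpair.2 ∧ ∀ d ≤ z.1.getD z.2.unpair.1 0 + 1,
      d ∣ z.1.getD z.2.unpair.1 0 + 1 → d ∣ z.2.unpair.2.unpair.1 + 1 → d = 1) (by fun_prop))).of_eq
        fun z => congrArg cd (propext (and_congr_right fun _ => ⟨fun h => h _ (Nat.le_of_dvd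
          (Nat.succ_pos _) (Nat.gcd_dvd_left _ _)) (Nat.gcd_dvd_left _ _) (Nat.gcd_dvd_right _ _),
            fun h d _ a b => Nat.eq_one_of_dvd_coprimes h a b⟩))

theorem gb_ag {x y : ℕ → ℕ} {l : List ℕ} (h : Ag (l.sum + 1) x y) (k : ∀ e ∈ l, x ∈ gb e) :
    ∀ e ∈ l, y ∈ gb e := fun e he => by
  have := List.single_le_sum (by simp) e he
  have := Nat.unpair_left_le e
  simpa only [gb, mem_ofPred_eq, h e.unpair.1 (by omega)] using k e he

theorem main {Y : Type} [t : TopologicalSpace Y] [T25Space Y] {γ : ℕ → Set Y}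
    (h : t = generateFrom (range γ)) : ∃ x, ¬ REPred (x ∈ gb ·) ∧ ∀ y (W : ℕ × List ℕ → Prop), REPred W →
      (∀ n, y ∈ γ n ↔ ∃ l, W (n, l) ∧ ∀ e ∈ l, x ∈ gb e) → REPred (y ∈ γ ·) := by
  have := @cnt_re ℕ _
  have := @cnt_re (ℕ × List ℕ) _
  obtain ⟨u, hu⟩ := baire (ι := {W : ℕ → Prop // REPred W} ⊕ {W : ℕ × List ℕ → Prop // REPred W})
    (Sum.elim (fun W x => W.1 ≠ (x ∈ gb ·)) fun W x =>
      ¬ ∃ y, ∀ n, y ∈ γ n ↔ ∃ l, W.1 (n, l) ∧ ∀ e ∈ l, x ∈ gb e)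
  refine ⟨u, fun c => ?_, fun y W c k => ?_⟩
  · obtain ⟨n, a | a⟩ := hu (.inl ⟨_, c⟩)
    · exact a u (fun _ _ => rfl) rfl
    obtain ⟨w, a1, a2⟩ := a (fun i => if i = n then u i + 1 else u i) (n + 1) fun i hi => if_neg hi.ne
    let _ := generateFrom (range gb)
    have := t2
    have : u = w := (inseparable_iff_eq.1 ((isTopologicalBasis_of_subbasis rfl).inseparable_iff.2 ?_))
    · simpa [← this] using a1 n
    rintro _ ⟨f, ⟨-, b⟩, rfl⟩
    refine forall₂_congr fun s hs => ?_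
    obtain ⟨e, rfl⟩ := b hs
    exact (congrFun (not_not.1 a2) e).to_iff
  obtain ⟨n, a | a⟩ := hu (.inr ⟨_, c⟩)
  · exact absurd ⟨y, k⟩ (a u fun _ _ => rfl)
  simp only [Sum.elim_inr, not_not] at a
  have : Nonempty Y := ⟨y⟩
  choose! g hg using fun (x : ℕ → ℕ)
    (a : ∃ y, ∀ n, y ∈ γ n ↔ ∃ l, W (n, l) ∧ ∀ e ∈ l, x ∈ gb e) => a
  have e : ∀ i, y ∈ γ i ↔ g u ∈ γ i := fun i => (k i).trans (hg u ⟨y, k⟩ i).symm
  replace c := RE.un c
  have := gb_p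
  obtain ⟨ρ, h1, h2⟩ : ∃ ρ : List ℕ, ρ.length = n ∧ ∀ i < n, ρ.getD i 0 = u i :=
    ⟨(List.range n).map u, by simp, fun i hi => by simp [hi]⟩
  refine (RE.re (p := fun i => ∃ l, W (i, l) ∧ ∃ τ : List ℕ, ∀ e ∈ l, ((ρ ++ τ).getD · 0) ∈ gb e)
    (r_exists (r_and (by fun_prop) (r_exists (r_prim (p_forall (p_comp
      (g := fun z : ((ℕ × List ℕ) × List ℕ) × ℕ => (ρ ++ z.1.2, z.2)) this (by fun_prop))
        (by fun_prop))))))).of_eq fun i => ⟨fun ⟨l, b1, τ, b2⟩ => ?_, fun b => ?_⟩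
  · have v : Ag n u ((ρ ++ τ).getD · 0) := fun i hi => (List.getD_append _ _ _ _ (h1 ▸ hi)).trans (h2 i hi)
    obtain ⟨w, w1, w2⟩ := a _ (n + (l.sum + 1)) v
    rw [e, const h hg a ⟨y, k⟩ w2 (fun _ _ => rfl) fun j hj => (w1 j (by omega)).trans (v j hj)]
    exact (hg w w2 i).2 ⟨l, b1, gb_ag (fun j hj => w1 j (by omega)) b2⟩
  · obtain ⟨l, b1, b2⟩ := (k i).1 b
    refine ⟨l, b1, (List.range (l.sum + 1)).map fun j => u (n + j), gb_ag (fun j hj => ?_) b2⟩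
    by_cases p : j < n
    · exact (List.getD_append _ _ _ _ (h1 ▸ p)).trans (h2 j p)
    · refine (List.getD_append_right _ _ _ _ (by omega)).trans ?_
      simp [h1, not_lt.1 p, show j - n < l.sum + 1 by omega]

end Pool.Agent.H.MP_4f977f_lc
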